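import Pool.Agent.H7.GF.Basic
import Pool.Agent.H7.GF.Targets2

/-!
MP_cd65c5_nt: counting roots modulo the squarefree divisors of a given number.
-/

set_option autoImplicit false

namespace Pool.Agent.H7.GF

open Polynomial NumberField Module

theorem intv_finite (S : ℕ) (Q : ℤ → Prop) : {t : ℤ | |t| ≤ (S : ℤ) ∧ Q t}.Finite :=
  (Set.finite_Icc (-(S : ℤ)) S).subset fun _ ht => abs_le.1 ht.1

theorem intv_card (S : ℕ) (Q : ℤ → Prop) :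
    ({t : ℤ | |t| ≤ (S : ℤ) ∧ Q t}.ncard : ℝ) ≤ 2 * (S : ℝ) + 1 := by
  have h1 : {t : ℤ | |t| ≤ (S : ℤ) ∧ Q t}.ncard ≤ (Set.Icc (-(S : ℤ)) S).ncard :=
    Set.ncard_le_ncard (fun t ht => abs_le.1 ht.1) (Set.finite_Icc _ _)
  rw [← Finset.coe_Icc, Set.ncard_coe_finset, Int.card_Icc] at h1
  have h2 : ((S : ℤ) + 1 - -(S : ℤ)).toNat = 2 * S + 1 := by omega
  rw [h2] at h1
  exact_mod_cast h1

/-- roots modulo squarefree numbers composed of the primes of `N` -/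
theorem sq_count (hRTS : T_RTS) (N K S : ℕ) (hN : N ≠ 0) (hK : 1 ≤ K) (R : ℝ) (hR : 0 < R)
    (Δ : ℤ[X]) (hΔ : Δ.natDegree ≤ K) :
    ({t : ℤ | |t| ≤ (S : ℤ) ∧ ∃ C : ℕ, Squarefree C ∧ R < C ∧ ∀ p, p.Prime → p ∣ C →
      p ∣ N ∧ toZ p Δ ≠ 0 ∧ (p : ℤ) ∣ Δ.eval t}.ncard : ℝ) ≤
    (2 * (K : ℝ)) ^ om N * ((2 * (S : ℝ) + 1) / R + 1) := by
  classical
  set D : Finset ℕ := (N.primeFactors.powerset.image fun P => ∏ p ∈ P, p).filter fun C =>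
    Squarefree C ∧ R < C ∧ C.primeFactors ⊆ N.primeFactors ∧
      ∀ p, p.Prime → p ∣ C → toZ p Δ ≠ 0 with hD
  have hsub : {t : ℤ | |t| ≤ (S : ℤ) ∧ ∃ C : ℕ, Squarefree C ∧ R < C ∧ ∀ p, p.Prime → p ∣ C →
      p ∣ N ∧ toZ p Δ ≠ 0 ∧ (p : ℤ) ∣ Δ.eval t} ⊆
      ⋃ C ∈ D, {t : ℤ | |t| ≤ (S : ℤ) ∧ ∀ p, p.Prime → p ∣ C → (p : ℤ) ∣ Δ.eval t} := by
    rintro t ⟨ht, C, hC, hRC, hp⟩
    simp only [Set.mem_iUnion]
    have hCN : C.primeFactors ⊆ N.primeFactors := by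
      intro p hpC
      rw [Nat.mem_primeFactors] at hpC ⊢
      exact ⟨hpC.1, (hp p hpC.1 hpC.2.1).1, hN⟩
    refine ⟨C, ?_, ht, fun p h1 h2 => (hp p h1 h2).2.2⟩
    rw [hD, Finset.mem_filter, Finset.mem_image]
    exact ⟨⟨C.primeFactors, Finset.mem_powerset.2 hCN, Nat.prod_primeFactors_of_squarefree hC⟩,
      hC, hRC, hCN, fun p h1 h2 => (hp p h1 h2).2.1⟩
  have hfin : (⋃ C ∈ D, {t : ℤ | |t| ≤ (S : ℤ) ∧ ∀ p, p.Prime → p ∣ C →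
      (p : ℤ) ∣ Δ.eval t}).Finite := by
    refine Set.Finite.biUnion D.finite_toSet fun C _ => intv_finite S _
  have h1 := (Set.ncard_le_ncard hsub hfin).trans (Finset.set_ncard_biUnion_le D _)
  have hcard : (D.card : ℝ) ≤ 2 ^ om N := by
    have h2 : D.card ≤ 2 ^ om N := by
      refine (Finset.card_filter_le _ _).trans (Finset.card_image_le.trans ?_)
      rw [Finset.card_powerset, om]
    exact_mod_cast h2
  have hK1 : (1 : ℝ) ≤ K := by exact_mod_cast hK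
  have hS0 : (0 : ℝ) ≤ 2 * (S : ℝ) + 1 := by positivity
  have hterm : ∀ C ∈ D, ({t : ℤ | |t| ≤ (S : ℤ) ∧ ∀ p, p.Prime → p ∣ C →
      (p : ℤ) ∣ Δ.eval t}.ncard : ℝ) ≤ (K : ℝ) ^ om N * ((2 * (S : ℝ) + 1) / R + 1) := by
    intro C hC
    rw [hD, Finset.mem_filter] at hC
    obtain ⟨-, hsq, hRC, hpf, htz⟩ := hC
    refine (hRTS K C S Δ hsq hΔ htz).trans ?_
    refine mul_le_mul ?_ ?_ (by positivity) (by positivity)
    · exact pow_le_pow_right₀ hK1 (Finset.card_le_card hpf)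
    · have : (2 * (S : ℝ) + 1) / C ≤ (2 * (S : ℝ) + 1) / R :=
        div_le_div_of_nonneg_left hS0 hR hRC.le
      linarith
  calc _ ≤ ((∑ C ∈ D, {t : ℤ | |t| ≤ (S : ℤ) ∧ ∀ p, p.Prime → p ∣ C →
      (p : ℤ) ∣ Δ.eval t}.ncard : ℕ) : ℝ) := by exact_mod_cast h1
    _ ≤ ∑ C ∈ D, (K : ℝ) ^ om N * ((2 * (S : ℝ) + 1) / R + 1) := by
        push_cast
        exact Finset.sum_le_sum hterm
    _ = (D.card : ℝ) * ((K : ℝ) ^ om N * ((2 * (S : ℝ) + 1) / R + 1)) := by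
        rw [Finset.sum_const, nsmul_eq_mul]
    _ ≤ 2 ^ om N * ((K : ℝ) ^ om N * ((2 * (S : ℝ) + 1) / R + 1)) := by
        refine mul_le_mul_of_nonneg_right hcard (by positivity)
    _ = _ := by rw [mul_pow]; ring

end Pool.Agent.H7.GF
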