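import Pool.Agent.H54.GF.Common

/-!
MP_cd65c5_nt: radical with large primes (module E3A).
-/

set_option autoImplicit false

namespace Pool.Agent.H7.GF

open Polynomial NumberField Module

theorem e3a (hDDS : T_DDS) (hRTS : T_RTS) : T_E3A := by
  classical
  intro m hm2 hm6 b hb
  obtain ⟨m', rfl⟩ : ∃ m', m = m' + 1 := ⟨m - 1, by omega⟩
  obtain ⟨K, DD, Δ, h1, h2, h3, h4, h5⟩ := hDDS m' b (by omega) hb
  set N0 : ℕ := 400 * (2 * K + 1) with hN0
  set L : ℝ := (2 * ((K + 1 : ℕ) : ℝ)) ^ N0 with hL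
  have hL0 : 0 ≤ L := by positivity
  refine ⟨3 * K + 3 ^ m' * (4 * L) + 3 ^ (m' + 1), fun H hH => ?_⟩
  rw [Nat.add_sub_cancel]
  have hHr : (1 : ℝ) ≤ H := by exact_mod_cast hH
  rcases Nat.eq_or_lt_of_le hH with h | hH2
  · refine (cnt_le_card _ _ _).trans ?_
    rw [← h]
    have e1 : (2 * (((1 : ℕ) : ℕ) : ℝ) + 1) ^ (m' + 1) = 3 ^ (m' + 1) := by
      congr 1
      push_cast
      norm_num
    have e2 : (((1 : ℕ) : ℕ) : ℝ) ^ m' = 1 := by
      rw [Nat.cast_one, one_pow]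
    rw [e1, e2, mul_one]
    have : (0 : ℝ) ≤ 3 * K := by positivity
    have : (0 : ℝ) ≤ 3 ^ m' * (4 * L) := by positivity
    linarith
  have hH2r : (2 : ℝ) ≤ H := by exact_mod_cast hH2
  set N : (Fin m' → ℤ) → Set ℤ := fun a => {t : ℤ | |t| ≤ (H : ℤ) ∧ ∃ C : ℕ, Good b C ∧ H < C ∧
    ∀ p, p.Prime → p ∣ C → (H : ℝ) ^ (1 / 400 : ℝ) < p ∧
      IX p 2 (pol b (Fin.cons t a : Fin (m' + 1) → ℤ))} with hN
  have hNfin : ∀ a, (N a).Finite := fun a => intv_finite H _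
  have hcov : {a : Fin (m' + 1) → ℤ | a ∈ box (m' + 1) H ∧ ∃ C : ℕ, Good b C ∧ H < C ∧
      ∀ p, p.Prime → p ∣ C → (H : ℝ) ^ (1 / 400 : ℝ) < p ∧ IX p 2 (pol b a)} ⊆
      ⋃ a ∈ box m' H, (fun t : ℤ => (Fin.cons t a : Fin (m' + 1) → ℤ)) '' N a := by
    rintro a ⟨ha, C, hC⟩
    rw [mem_box] at ha
    simp only [Set.mem_iUnion]
    refine ⟨Fin.tail a, mem_box.2 fun i => ha i.succ, a 0, ⟨ha 0, C, ?_⟩, Fin.cons_self_tail a⟩
    rw [Fin.cons_self_tail]
    exact hC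
  have hfin : (⋃ a ∈ box m' H, (fun t : ℤ => (Fin.cons t a : Fin (m' + 1) → ℤ)) '' N a).Finite :=
    Set.Finite.biUnion (box m' H).finite_toSet fun a _ => (hNfin a).image _
  have hcard1 := (Set.ncard_le_ncard hcov hfin).trans (Finset.set_ncard_biUnion_le (box m' H) _)
  have hcard2 : ∑ a ∈ box m' H, ((fun t : ℤ => (Fin.cons t a : Fin (m' + 1) → ℤ)) '' N a).ncard ≤
      ∑ a ∈ box m' H, (N a).ncard :=
    Finset.sum_le_sum fun a _ => Set.ncard_image_le (hNfin a)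
  have hterm : ∀ a ∈ box m' H, DD a ≠ 0 → ((N a).ncard : ℝ) ≤ 4 * L := by
    intro a ha hne
    -- the relevant primes
    set P : Finset ℕ := (DD a).natAbs.primeFactors.filter fun p : ℕ =>
      (H : ℝ) ^ (1 / 400 : ℝ) < p with hP
    have hPp : ∀ p ∈ P, p.Prime := fun p hp =>
      Nat.prime_of_mem_primeFactors (Finset.mem_filter.1 hp).1
    set M : ℕ := ∏ p ∈ P, p with hM
    have hM0 : M ≠ 0 := Finset.prod_ne_zero_iff.2 fun p hp => (hPp p hp).ne_zero
    have hMf : M.primeFactors = P := Nat.primeFactors_prod hPp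
    have hnat : (DD a).natAbs ≠ 0 := Int.natAbs_ne_zero.2 hne
    have hMd : M ≤ (DD a).natAbs := by
      refine Nat.le_of_dvd (Nat.pos_of_ne_zero hnat) ?_
      refine dvd_trans ?_ (Nat.prod_primeFactors_dvd (DD a).natAbs)
      exact Finset.prod_dvd_prod_of_subset _ _ _ (Finset.filter_subset _ _)
    have hDle := h2 H hH a ha
    have hMle : (M : ℝ) ≤ (H : ℝ) ^ (2 * K + 1) := by
      have e1 : (((DD a).natAbs : ℕ) : ℝ) = |((DD a : ℤ) : ℝ)| := by
        rw [Nat.cast_natAbs]; push_cast; rfl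
      have e2 : |((DD a : ℤ) : ℝ)| ≤ (K : ℝ) * (H : ℝ) ^ K := by exact_mod_cast hDle
      have e3 : (K : ℝ) ≤ (H : ℝ) ^ (K + 1) := by
        have e4 : (K : ℝ) ≤ 2 ^ (K + 1) := by
          have : K ≤ 2 ^ (K + 1) := (Nat.lt_two_pow_self).le.trans
            (Nat.pow_le_pow_right (by norm_num) (by omega))
          exact_mod_cast this
        exact e4.trans (pow_le_pow_left₀ (by norm_num) hH2r _)
      calc (M : ℝ) ≤ (((DD a).natAbs : ℕ) : ℝ) := by exact_mod_cast hMd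
        _ = |((DD a : ℤ) : ℝ)| := e1
        _ ≤ (K : ℝ) * (H : ℝ) ^ K := e2
        _ ≤ (H : ℝ) ^ (K + 1) * (H : ℝ) ^ K := by gcongr
        _ = _ := by rw [← pow_add]; congr 1; omega
    have hom : om M ≤ N0 := by
      rw [om, hMf]
      by_contra hcon
      push Not at hcon
      have e1 : ((H : ℝ) ^ (1 / 400 : ℝ)) ^ P.card ≤ (M : ℝ) := by
        rw [hM, ← Finset.prod_const]
        push_cast
        refine Finset.prod_le_prod (fun _ _ => by positivity) fun p hp => ?_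
        exact (Finset.mem_filter.1 hp).2.le
      have e2 := e1.trans hMle
      rw [← Real.rpow_natCast, ← Real.rpow_mul (by positivity), ← Real.rpow_natCast,
        Real.rpow_le_rpow_left_iff (by linarith)] at e2
      have e3 : (N0 : ℝ) + 1 ≤ (P.card : ℝ) := by exact_mod_cast hcon
      rw [hN0] at e3
      push_cast at e2 e3
      linarith
    have hdeg : (Δ a).natDegree ≤ K + 1 := by
      obtain ⟨p, hp1, hp2⟩ := Nat.exists_infinite_primes (m' + 3 + b.natAbs)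
      have hpb : ¬ ((p : ℤ) ∣ b) := by
        intro hdvd
        have := Nat.le_of_dvd (Int.natAbs_pos.2 hb) (Int.natCast_dvd.1 hdvd)
        omega
      exact ((h3 p hp2 (by omega) hpb a).2).trans (by omega)
    have hsq := sq_count hRTS M (K + 1) H hM0 (by omega) H (by positivity) (Δ a) hdeg
    have hsub : N a ⊆ {t : ℤ | |t| ≤ (H : ℤ) ∧ ∃ C : ℕ, Squarefree C ∧ (H : ℝ) < C ∧
        ∀ p, p.Prime → p ∣ C → p ∣ M ∧ toZ p (Δ a) ≠ 0 ∧ (p : ℤ) ∣ (Δ a).eval t} := by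
      rintro t ⟨ht, C, hC1, hC2, hC3⟩
      refine ⟨ht, C, hC1.1, by exact_mod_cast hC2, fun p hp hpC => ?_⟩
      obtain ⟨hp7, hpb⟩ := hC1.2 p hp hpC
      obtain ⟨hpH, hix⟩ := hC3 p hp hpC
      refine ⟨?_, (h3 p hp (by omega) hpb a).1,
        h4 p hp (by omega) hpb t a (IX_mono (by norm_num) hix)⟩
      have hd := Int.natCast_dvd.1 (h5 p hp (by omega) hpb t a hix)
      exact Finset.dvd_prod_of_mem _ (Finset.mem_filter.2
        ⟨Nat.mem_primeFactors.2 ⟨hp, hd, hnat⟩, hpH⟩)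
    have hle1 : ((N a).ncard : ℝ) ≤ (2 * ((K + 1 : ℕ) : ℝ)) ^ om M *
        ((2 * (H : ℝ) + 1) / H + 1) :=
      le_trans (by exact_mod_cast Set.ncard_le_ncard hsub (intv_finite H _)) hsq
    refine hle1.trans ?_
    have e1 : (2 * (H : ℝ) + 1) / H + 1 ≤ 4 := by
      have : (2 * (H : ℝ) + 1) / H ≤ 3 := by
        rw [div_le_iff₀ (by positivity)]
        linarith
      linarith
    have e2 : (2 * ((K + 1 : ℕ) : ℝ)) ^ om M ≤ L := by
      refine pow_le_pow_right₀ ?_ hom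
      push_cast
      have : (0 : ℝ) ≤ K := Nat.cast_nonneg K
      linarith
    calc (2 * ((K + 1 : ℕ) : ℝ)) ^ om M * ((2 * (H : ℝ) + 1) / H + 1) ≤ L * 4 :=
          mul_le_mul e2 e1 (by positivity) hL0
      _ = 4 * L := by ring
  have hZ : (((box m' H).filter fun a => DD a = 0).card : ℝ) ≤ K * (H : ℝ) ^ (m' - 1) := by
    have e1 := h1 H hH
    rw [cnt] at e1
    have e2 : {a : Fin m' → ℤ | a ∈ box m' H ∧ DD a = 0} =
        (((box m' H).filter fun a => DD a = 0 : Finset (Fin m' → ℤ)) : Set (Fin m' → ℤ)) := by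
      ext a
      simp
    rw [e2, Set.ncard_coe_finset] at e1
    exact e1
  have hB : ((box m' H).card : ℝ) ≤ 3 ^ m' * (H : ℝ) ^ m' := by
    rw [card_box, ← mul_pow]
    push_cast
    gcongr
    linarith
  have hsum : ((∑ a ∈ box m' H, (N a).ncard : ℕ) : ℝ) ≤
      (((box m' H).filter fun a => DD a = 0).card : ℝ) * (2 * (H : ℝ) + 1) +
      ((box m' H).card : ℝ) * (4 * L) := by
    rw [← Finset.sum_filter_add_sum_filter_not (box m' H) (fun a => DD a = 0)]
    push_cast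
    refine add_le_add ?_ ?_
    · calc ∑ a ∈ (box m' H).filter (fun a => DD a = 0), ((N a).ncard : ℝ)
          ≤ ∑ a ∈ (box m' H).filter (fun a => DD a = 0), (2 * (H : ℝ) + 1) :=
            Finset.sum_le_sum fun a _ => intv_card H _
        _ = _ := by rw [Finset.sum_const, nsmul_eq_mul]
    · calc ∑ a ∈ (box m' H).filter (fun a => ¬ DD a = 0), ((N a).ncard : ℝ)
          ≤ ∑ a ∈ (box m' H).filter (fun a => ¬ DD a = 0), (4 * L) := by
            refine Finset.sum_le_sum fun a ha => ?_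
            rw [Finset.mem_filter] at ha
            exact hterm a ha.1 ha.2
        _ = (((box m' H).filter (fun a => ¬ DD a = 0)).card : ℝ) * (4 * L) := by
            rw [Finset.sum_const, nsmul_eq_mul]
        _ ≤ _ := by
            refine mul_le_mul_of_nonneg_right ?_ (by positivity)
            exact_mod_cast Finset.card_filter_le _ _
  have hpow : (H : ℝ) ^ (m' - 1) * H = (H : ℝ) ^ m' := by
    rw [← pow_succ]
    congr 1
    omega
  rw [cnt]
  calc (({a : Fin (m' + 1) → ℤ | a ∈ box (m' + 1) H ∧ ∃ C : ℕ, Good b C ∧ H < C ∧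
      ∀ p, p.Prime → p ∣ C → (H : ℝ) ^ (1 / 400 : ℝ) < p ∧ IX p 2 (pol b a)}.ncard : ℕ) : ℝ)
      ≤ ((∑ a ∈ box m' H, (N a).ncard : ℕ) : ℝ) := by exact_mod_cast hcard1.trans hcard2
    _ ≤ _ := hsum
    _ ≤ (K * (H : ℝ) ^ (m' - 1)) * (3 * H) + (3 ^ m' * (H : ℝ) ^ m') * (4 * L) := by
        gcongr
        linarith
    _ = 3 * K * ((H : ℝ) ^ (m' - 1) * H) + 3 ^ m' * (4 * L) * (H : ℝ) ^ m' := by ring
    _ = (3 * K + 3 ^ m' * (4 * L)) * (H : ℝ) ^ m' := by rw [hpow]; ring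
    _ ≤ _ := by
        refine mul_le_mul_of_nonneg_right ?_ (by positivity)
        have : (0 : ℝ) ≤ 3 ^ (m' + 1) := by positivity
        linarith

end Pool.Agent.H7.GF
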