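import Pool.Agent.H54.GF.Common
import Pool.Agent.H7.GF.Targets1
import Pool.Agent.H7.GF.Targets3

/-!
MP_cd65c5_nt: small quintic polynomials with a large radical (module G5B).
-/

set_option autoImplicit false

namespace Pool.Agent.H7.GF

open Polynomial NumberField Module

theorem abs_le_floor (z : ℤ) (x : ℝ) (h : |(z : ℝ)| ≤ x) : |z| ≤ ((⌊x⌋₊ : ℕ) : ℤ) := by
  have h1 : ((z.natAbs : ℕ) : ℝ) ≤ x := by
    rw [Nat.cast_natAbs]
    exact_mod_cast h
  have h2 := Nat.le_floor h1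
  rw [Int.abs_eq_natAbs]
  exact_mod_cast h2

theorem floor_bd {c X e : ℝ} (hc : 0 < c) (hX : 1 ≤ X) (he : 0 ≤ e) :
    2 * ((⌊c * X ^ e⌋₊ : ℕ) : ℝ) + 1 ≤ (2 * c + 1) * X ^ e := by
  have h1 : (1 : ℝ) ≤ X ^ e := Real.one_le_rpow hX he
  have h2 : ((⌊c * X ^ e⌋₊ : ℕ) : ℝ) ≤ c * X ^ e := Nat.floor_le (by positivity)
  nlinarith

/-- zeros of a function with at most `K` zeros on the lines in the first direction -/
theorem zero_count {m : ℕ} (A : Fin (m + 1) → ℕ) (DD : (Fin (m + 1) → ℤ) → ℤ) (K : ℕ)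
    (h : ∀ a : Fin (m + 1) → ℤ, {t : ℤ | DD (Function.update a 0 t) = 0}.Finite ∧
      {t : ℤ | DD (Function.update a 0 t) = 0}.ncard ≤ K) :
    ((Fintype.piFinset fun i => Finset.Icc (-(A i : ℤ)) (A i)).filter fun a => DD a = 0).card ≤
      K * ∏ i : Fin m, (2 * A i.succ + 1) := by
  classical
  set s := (Fintype.piFinset fun i => Finset.Icc (-(A i : ℤ)) (A i)).filter fun a => DD a = 0
    with hs
  have h1 := Finset.card_le_mul_card_image (f := fun a : Fin (m + 1) → ℤ => Fin.tail a) s K ?_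
  · refine h1.trans (Nat.mul_le_mul_left K ?_)
    have h2 : s.image (fun a : Fin (m + 1) → ℤ => Fin.tail a) ⊆
        Fintype.piFinset fun i : Fin m => Finset.Icc (-(A i.succ : ℤ)) (A i.succ) := by
      intro b hb
      rw [Finset.mem_image] at hb
      obtain ⟨a, ha, rfl⟩ := hb
      rw [hs, Finset.mem_filter, Fintype.mem_piFinset] at ha
      rw [Fintype.mem_piFinset]
      exact fun i => ha.1 i.succ
    refine (Finset.card_le_card h2).trans ?_
    rw [Fintype.card_piFinset]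
    refine le_of_eq (Finset.prod_congr rfl fun i _ => ?_)
    rw [Int.card_Icc]
    omega
  · intro b _
    obtain ⟨h2, h3⟩ := h (Fin.cons 0 b)
    have h4 : (((s.filter fun a => Fin.tail a = b) : Finset (Fin (m + 1) → ℤ)) :
        Set (Fin (m + 1) → ℤ)).ncard ≤
        {t : ℤ | DD (Function.update (Fin.cons 0 b : Fin (m + 1) → ℤ) 0 t) = 0}.ncard := by
      refine Set.ncard_le_ncard_of_injOn (fun a => a 0) ?_ ?_ h2
      · intro a ha
        rw [Finset.mem_coe, Finset.mem_filter, hs, Finset.mem_filter] at ha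
        have h5 : Function.update (Fin.cons 0 b : Fin (m + 1) → ℤ) 0 (a 0) = a := by
          rw [Fin.update_cons_zero, ← ha.2, Fin.cons_self_tail]
        change DD (Function.update (Fin.cons 0 b : Fin (m + 1) → ℤ) 0 (a 0)) = 0
        rw [h5]
        exact ha.1.2
      · intro a ha a' ha' he
        rw [Finset.mem_coe, Finset.mem_filter] at ha ha'
        have he' : a 0 = a' 0 := he
        rw [← Fin.cons_self_tail a, ← Fin.cons_self_tail a', ha.2, ha'.2, he']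
    rw [Set.ncard_coe_finset] at h4
    exact h4.trans h3

theorem g5b (hDD0 : T_DD0) (hRTS : T_RTS) (hOMG : T_OMG) : T_G5B := by
  classical
  intro c hc
  obtain ⟨K, DD, Δ, h1, h2, h3, h4, h5⟩ := hDD0 4 (by norm_num)
  have hεpos : (0 : ℝ) < 1 / (100 * ((K : ℝ) + 1)) := by positivity
  obtain ⟨K2, hK2⟩ := hOMG (2 * ((K : ℝ) + 1)) (by
    have : (0 : ℝ) ≤ K := Nat.cast_nonneg K
    linarith) _ hεpos
  set ε : ℝ := 1 / (100 * ((K : ℝ) + 1)) with hε
  have hK20 : 1 ≤ K2 := by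
    have := hK2 1 le_rfl
    simpa [om] using this
  set M : ℝ := (((K : ℝ) + 1) * (c + 6) ^ (K + 1)) ^ ε with hM
  have hM0 : 0 < M := by positivity
  refine ⟨11 * K * (2 * c + 1) ^ 3 + 11 * (2 * c + 1) ^ 3 * (K2 * M * (2 * c + 2)), fun X hX => ?_⟩
  have hX0 : (0 : ℝ) < X := by linarith
  set S : ℕ := ⌊c * X ^ ((5 : ℝ) / 8)⌋₊ with hS
  set A : Fin 4 → ℕ := ![⌊c * X ^ ((4 : ℝ) / 8)⌋₊, ⌊c * X ^ ((3 : ℝ) / 8)⌋₊,
    ⌊c * X ^ ((2 : ℝ) / 8)⌋₊, 5] with hA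
  set Bx : Finset (Fin 4 → ℤ) :=
    Fintype.piFinset fun i => Finset.Icc (-(A i : ℤ)) (A i) with hBx
  set N : (Fin 4 → ℤ) → Set ℤ := fun a => {s : ℤ | |s| ≤ (S : ℤ) ∧ ∃ C : ℕ, Squarefree C ∧
    X ^ (3 / 8 : ℝ) < (C : ℝ) ∧ ∀ p, p.Prime → p ∣ C → 7 < p ∧ IX p 2 (pol s a)} with hN
  have hNfin : ∀ a, (N a).Finite := fun a => intv_finite S _
  -- the set is covered
  have hcov : {g : ℤ[X] | g.Monic ∧ g.natDegree = 5 ∧ |(g.coeff 4 : ℝ)| ≤ 5 ∧
    (∀ j, 2 ≤ j → j ≤ 5 → |(g.coeff (5 - j) : ℝ)| ≤ c * X ^ ((j : ℝ) / 8)) ∧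
    ∃ C : ℕ, Squarefree C ∧ X ^ (3 / 8 : ℝ) < (C : ℝ) ∧ (C : ℝ) ^ 2 ≤ X ∧
      (∀ p, p.Prime → p ∣ C → 7 < p ∧ IX p 2 g)} ⊆
      ⋃ a ∈ Bx, (fun s : ℤ => pol s a) '' N a := by
    rintro g ⟨hm, hd, hc4, hcj, C, hC1, hC2, -, hC3⟩
    have hg := eq_pol (m := 4) g hm hd
    simp only [Set.mem_iUnion]
    refine ⟨fun i : Fin 4 => g.coeff ((i : ℕ) + 1), ?_, g.coeff 0, ⟨?_, C, hC1, hC2, ?_⟩, hg.symm⟩
    · rw [hBx, Fintype.mem_piFinset]
      intro i
      rw [Finset.mem_Icc, ← abs_le]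
      fin_cases i
      · exact abs_le_floor _ _ (by exact_mod_cast hcj 4 (by norm_num) (by norm_num))
      · exact abs_le_floor _ _ (by exact_mod_cast hcj 3 (by norm_num) (by norm_num))
      · exact abs_le_floor _ _ (by exact_mod_cast hcj 2 (by norm_num) (by norm_num))
      · change |g.coeff 4| ≤ 5
        exact_mod_cast hc4
    · exact abs_le_floor _ _ (by exact_mod_cast hcj 5 (by norm_num) (by norm_num))
    · intro p hp hpC
      rw [← hg]
      exact hC3 p hp hpC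
  have hfin : (⋃ a ∈ Bx, (fun s : ℤ => pol s a) '' N a).Finite :=
    Set.Finite.biUnion Bx.finite_toSet fun a _ => (hNfin a).image _
  have hcard1 := (Set.ncard_le_ncard hcov hfin).trans (Finset.set_ncard_biUnion_le Bx _)
  have hcard2 : ∑ a ∈ Bx, ((fun s : ℤ => pol s a) '' N a).ncard ≤ ∑ a ∈ Bx, (N a).ncard :=
    Finset.sum_le_sum fun a _ => Set.ncard_image_le (hNfin a)
  -- bounds
  have e58 : 2 * (S : ℝ) + 1 ≤ (2 * c + 1) * X ^ ((5 : ℝ) / 8) := floor_bd hc hX (by norm_num)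
  have e48 : 2 * (A 0 : ℝ) + 1 ≤ (2 * c + 1) * X ^ ((4 : ℝ) / 8) := floor_bd hc hX (by norm_num)
  have e38 : 2 * (A 1 : ℝ) + 1 ≤ (2 * c + 1) * X ^ ((3 : ℝ) / 8) := floor_bd hc hX (by norm_num)
  have e28 : 2 * (A 2 : ℝ) + 1 ≤ (2 * c + 1) * X ^ ((2 : ℝ) / 8) := floor_bd hc hX (by norm_num)
  have e08 : 2 * (A 3 : ℝ) + 1 = 11 := by
    change 2 * ((5 : ℕ) : ℝ) + 1 = 11
    norm_num
  have hZ : ((Bx.filter fun a => DD a = 0).card : ℝ) ≤
      11 * K * (2 * c + 1) ^ 2 * X ^ ((5 : ℝ) / 8) := by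
    have hz := zero_count A DD K (fun a => h1 0 rfl a)
    have hz' : ((Bx.filter fun a => DD a = 0).card : ℝ) ≤
        K * ((2 * (A 1 : ℝ) + 1) * ((2 * (A 2 : ℝ) + 1) * (2 * (A 3 : ℝ) + 1))) := by
      have : ((Bx.filter fun a => DD a = 0).card : ℝ) ≤
          ((K * ∏ i : Fin 3, (2 * A i.succ + 1) : ℕ) : ℝ) := by exact_mod_cast hz
      refine this.trans (le_of_eq ?_)
      rw [Fin.prod_univ_three]
      push_cast
      change (K : ℝ) * ((2 * (A 1 : ℝ) + 1) * (2 * (A 2 : ℝ) + 1) * (2 * (A 3 : ℝ) + 1)) = _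
      ring
    refine hz'.trans ?_
    rw [e08]
    have e1 : X ^ ((5 : ℝ) / 8) = X ^ ((3 : ℝ) / 8) * X ^ ((2 : ℝ) / 8) := by
      rw [← Real.rpow_add hX0]; norm_num
    calc (K : ℝ) * ((2 * (A 1 : ℝ) + 1) * ((2 * (A 2 : ℝ) + 1) * 11))
        ≤ K * (((2 * c + 1) * X ^ ((3 : ℝ) / 8)) * (((2 * c + 1) * X ^ ((2 : ℝ) / 8)) * 11)) := by
          gcongr
      _ = _ := by rw [e1]; ring
  have hB : (Bx.card : ℝ) ≤ 11 * (2 * c + 1) ^ 3 * X ^ ((9 : ℝ) / 8) := by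
    have e0 : (Bx.card : ℝ) = (2 * (A 0 : ℝ) + 1) * ((2 * (A 1 : ℝ) + 1) *
        ((2 * (A 2 : ℝ) + 1) * (2 * (A 3 : ℝ) + 1))) := by
      rw [hBx, Fintype.card_piFinset, Fin.prod_univ_four]
      simp only [Int.card_Icc]
      have e2 : ∀ n : ℕ, ((n : ℤ) + 1 - -(n : ℤ)).toNat = 2 * n + 1 := by intro n; omega
      simp only [e2]
      push_cast
      ring
    rw [e0, e08]
    have e1 : X ^ ((9 : ℝ) / 8) = X ^ ((4 : ℝ) / 8) * (X ^ ((3 : ℝ) / 8) * X ^ ((2 : ℝ) / 8)) := by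
      rw [← Real.rpow_add hX0, ← Real.rpow_add hX0]; norm_num
    calc (2 * (A 0 : ℝ) + 1) * ((2 * (A 1 : ℝ) + 1) * ((2 * (A 2 : ℝ) + 1) * 11))
        ≤ ((2 * c + 1) * X ^ ((4 : ℝ) / 8)) * (((2 * c + 1) * X ^ ((3 : ℝ) / 8)) *
          (((2 * c + 1) * X ^ ((2 : ℝ) / 8)) * 11)) := by
          gcongr
      _ = _ := by rw [e1]; ring
  have hbox : ∀ a ∈ Bx, a ∈ box 4 (⌈(c + 5) * X⌉₊) := by
    intro a ha
    rw [hBx, Fintype.mem_piFinset] at ha
    rw [mem_box]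
    intro i
    have h6 := ha i
    rw [Finset.mem_Icc, ← abs_le] at h6
    refine h6.trans ?_
    have h7 : (A i : ℝ) ≤ (c + 5) * X := by
      have hpw : ∀ e : ℝ, e ≤ 1 → X ^ e ≤ X := fun e he => by
        calc X ^ e ≤ X ^ (1 : ℝ) := Real.rpow_le_rpow_of_exponent_le hX he
          _ = X := Real.rpow_one X
      have hfl : ∀ e : ℝ, e ≤ 1 → ((⌊c * X ^ e⌋₊ : ℕ) : ℝ) ≤ (c + 5) * X := fun e he => by
        calc ((⌊c * X ^ e⌋₊ : ℕ) : ℝ) ≤ c * X ^ e := Nat.floor_le (by positivity)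
          _ ≤ c * X := by gcongr; exact hpw e he
          _ ≤ (c + 5) * X := by nlinarith
      fin_cases i
      · exact hfl _ (by norm_num)
      · exact hfl _ (by norm_num)
      · exact hfl _ (by norm_num)
      · change ((5 : ℕ) : ℝ) ≤ (c + 5) * X
        push_cast
        nlinarith
    have h8 : (A i : ℝ) ≤ (⌈(c + 5) * X⌉₊ : ℝ) := h7.trans (Nat.le_ceil _)
    exact_mod_cast h8
  have hterm : ∀ a ∈ Bx, DD a ≠ 0 → ((N a).ncard : ℝ) ≤
      K2 * M * (2 * c + 2) * (X ^ ((1 : ℝ) / 100) * X ^ ((2 : ℝ) / 8)) := by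
    intro a ha hne
    set H : ℕ := ⌈(c + 5) * X⌉₊ with hH
    have hH1 : 1 ≤ H := by
      rw [hH, Nat.one_le_ceil_iff]; positivity
    have hHle : (H : ℝ) ≤ (c + 6) * X := by
      have := (Nat.ceil_lt_add_one (a := (c + 5) * X) (by positivity)).le
      rw [← hH] at this
      nlinarith
    have hDle := h2 H hH1 a (hbox a ha)
    have hnat : (DD a).natAbs ≠ 0 := Int.natAbs_ne_zero.2 hne
    have hsq := sq_count hRTS (DD a).natAbs (K + 1) S hnat (by omega) (X ^ (3 / 8 : ℝ))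
      (by positivity) (Δ a) (((h3 7 (by norm_num) (by norm_num) a).2).trans (by omega))
    have hsub : N a ⊆ {t : ℤ | |t| ≤ (S : ℤ) ∧ ∃ C : ℕ, Squarefree C ∧ X ^ (3 / 8 : ℝ) < C ∧
        ∀ p, p.Prime → p ∣ C → p ∣ (DD a).natAbs ∧ toZ p (Δ a) ≠ 0 ∧
          (p : ℤ) ∣ (Δ a).eval t} := by
      rintro s ⟨hs1, C, hC1, hC2, hC3⟩
      refine ⟨hs1, C, hC1, hC2, fun p hp hpC => ?_⟩
      obtain ⟨hp7, hix⟩ := hC3 p hp hpC
      refine ⟨?_, (h3 p hp (by omega) a).1, h4 p hp (by omega) s a (IX_mono (by norm_num) hix)⟩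
      have := h5 p hp (by omega) s a hix
      exact Int.natCast_dvd.1 this
    have hle1 : ((N a).ncard : ℝ) ≤ (2 * ((K + 1 : ℕ) : ℝ)) ^ om (DD a).natAbs *
        ((2 * (S : ℝ) + 1) / X ^ (3 / 8 : ℝ) + 1) :=
      le_trans (by exact_mod_cast Set.ncard_le_ncard hsub (intv_finite S _)) hsq
    refine hle1.trans ?_
    have hom : (2 * ((K + 1 : ℕ) : ℝ)) ^ om (DD a).natAbs ≤ K2 * (M * X ^ ((1 : ℝ) / 100)) := by
      have h6 := hK2 (DD a).natAbs (Nat.one_le_iff_ne_zero.2 hnat)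
      push_cast
      refine h6.trans (mul_le_mul_of_nonneg_left ?_ (by linarith))
      have h7 : (((DD a).natAbs : ℕ) : ℝ) ≤ (((K : ℝ) + 1) * (c + 6) ^ (K + 1)) * X ^ (K + 1) := by
        have h8 : (((DD a).natAbs : ℕ) : ℝ) = |((DD a : ℤ) : ℝ)| := by
          rw [Nat.cast_natAbs]; push_cast; rfl
        have h9 : |((DD a : ℤ) : ℝ)| ≤ (K : ℝ) * (H : ℝ) ^ K := by exact_mod_cast hDle
        have hH1' : (1 : ℝ) ≤ H := by exact_mod_cast hH1
        have hK0 : (0 : ℝ) ≤ K := Nat.cast_nonneg K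
        calc (((DD a).natAbs : ℕ) : ℝ) = |((DD a : ℤ) : ℝ)| := h8
          _ ≤ (K : ℝ) * (H : ℝ) ^ K := h9
          _ ≤ ((K : ℝ) + 1) * (H : ℝ) ^ (K + 1) := by
              gcongr
              · linarith
              · omega
          _ ≤ ((K : ℝ) + 1) * ((c + 6) * X) ^ (K + 1) := by gcongr
          _ = _ := by rw [mul_pow]; ring
      calc (((DD a).natAbs : ℕ) : ℝ) ^ ε
          ≤ ((((K : ℝ) + 1) * (c + 6) ^ (K + 1)) * X ^ (K + 1)) ^ ε :=
            Real.rpow_le_rpow (Nat.cast_nonneg _) h7 hεpos.le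
        _ = M * (X ^ (K + 1)) ^ ε := by
            rw [Real.mul_rpow (by positivity) (by positivity), hM]
        _ = M * X ^ ((1 : ℝ) / 100) := by
            congr 1
            rw [← Real.rpow_natCast, ← Real.rpow_mul hX0.le]
            congr 1
            rw [hε]
            push_cast
            field_simp
    have hsec : (2 * (S : ℝ) + 1) / X ^ (3 / 8 : ℝ) + 1 ≤ (2 * c + 2) * X ^ ((2 : ℝ) / 8) := by
      have h6 : (2 * (S : ℝ) + 1) / X ^ (3 / 8 : ℝ) ≤ (2 * c + 1) * X ^ ((2 : ℝ) / 8) := by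
        rw [div_le_iff₀ (by positivity)]
        refine e58.trans (le_of_eq ?_)
        rw [mul_assoc, ← Real.rpow_add hX0]
        norm_num
      have h7 : (1 : ℝ) ≤ X ^ ((2 : ℝ) / 8) := Real.one_le_rpow hX (by norm_num)
      linarith
    calc (2 * ((K + 1 : ℕ) : ℝ)) ^ om (DD a).natAbs * ((2 * (S : ℝ) + 1) / X ^ (3 / 8 : ℝ) + 1)
        ≤ (K2 * (M * X ^ ((1 : ℝ) / 100))) * ((2 * c + 2) * X ^ ((2 : ℝ) / 8)) := by
          refine mul_le_mul hom hsec (by positivity) ?_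
          have : 0 ≤ K2 := by linarith
          positivity
      _ = _ := by ring
  -- conclusion
  have hsum : ((∑ a ∈ Bx, (N a).ncard : ℕ) : ℝ) ≤
      ((Bx.filter fun a => DD a = 0).card : ℝ) * (2 * (S : ℝ) + 1) +
      (Bx.card : ℝ) * (K2 * M * (2 * c + 2) * (X ^ ((1 : ℝ) / 100) * X ^ ((2 : ℝ) / 8))) := by
    rw [← Finset.sum_filter_add_sum_filter_not Bx (fun a => DD a = 0)]
    push_cast
    refine add_le_add ?_ ?_
    · calc ∑ a ∈ Bx.filter (fun a => DD a = 0), ((N a).ncard : ℝ)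
          ≤ ∑ a ∈ Bx.filter (fun a => DD a = 0), (2 * (S : ℝ) + 1) :=
            Finset.sum_le_sum fun a _ => intv_card S _
        _ = _ := by rw [Finset.sum_const, nsmul_eq_mul]
    · have hK20' : 0 ≤ K2 := by linarith
      calc ∑ a ∈ Bx.filter (fun a => ¬ DD a = 0), ((N a).ncard : ℝ)
          ≤ ∑ a ∈ Bx.filter (fun a => ¬ DD a = 0),
            (K2 * M * (2 * c + 2) * (X ^ ((1 : ℝ) / 100) * X ^ ((2 : ℝ) / 8))) := by
            refine Finset.sum_le_sum fun a ha => ?_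
            rw [Finset.mem_filter] at ha
            exact hterm a ha.1 ha.2
        _ = ((Bx.filter (fun a => ¬ DD a = 0)).card : ℝ) *
            (K2 * M * (2 * c + 2) * (X ^ ((1 : ℝ) / 100) * X ^ ((2 : ℝ) / 8))) := by
            rw [Finset.sum_const, nsmul_eq_mul]
        _ ≤ _ := by
            refine mul_le_mul_of_nonneg_right ?_ (by positivity)
            exact_mod_cast Finset.card_filter_le _ _
  have hfinal : ((∑ a ∈ Bx, (N a).ncard : ℕ) : ℝ) ≤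
      (11 * K * (2 * c + 1) ^ 3 + 11 * (2 * c + 1) ^ 3 * (K2 * M * (2 * c + 2))) *
        X ^ (7 / 5 : ℝ) := by
    refine hsum.trans ?_
    have hK20' : 0 ≤ K2 := by linarith
    have p1 : X ^ ((5 : ℝ) / 8) * X ^ ((5 : ℝ) / 8) ≤ X ^ (7 / 5 : ℝ) := by
      rw [← Real.rpow_add hX0]
      exact Real.rpow_le_rpow_of_exponent_le hX (by norm_num)
    have p2 : X ^ ((9 : ℝ) / 8) * (X ^ ((1 : ℝ) / 100) * X ^ ((2 : ℝ) / 8)) ≤
        X ^ (7 / 5 : ℝ) := by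
      rw [← Real.rpow_add hX0, ← Real.rpow_add hX0]
      exact Real.rpow_le_rpow_of_exponent_le hX (by norm_num)
    calc ((Bx.filter fun a => DD a = 0).card : ℝ) * (2 * (S : ℝ) + 1) +
      (Bx.card : ℝ) * (K2 * M * (2 * c + 2) * (X ^ ((1 : ℝ) / 100) * X ^ ((2 : ℝ) / 8)))
        ≤ (11 * K * (2 * c + 1) ^ 2 * X ^ ((5 : ℝ) / 8)) * ((2 * c + 1) * X ^ ((5 : ℝ) / 8)) +
          (11 * (2 * c + 1) ^ 3 * X ^ ((9 : ℝ) / 8)) *
            (K2 * M * (2 * c + 2) * (X ^ ((1 : ℝ) / 100) * X ^ ((2 : ℝ) / 8))) := by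
          refine add_le_add ?_ ?_
          · exact mul_le_mul hZ e58 (by positivity) (by positivity)
          · exact mul_le_mul_of_nonneg_right hB (by positivity)
      _ = 11 * K * (2 * c + 1) ^ 3 * (X ^ ((5 : ℝ) / 8) * X ^ ((5 : ℝ) / 8)) +
          11 * (2 * c + 1) ^ 3 * (K2 * M * (2 * c + 2)) *
            (X ^ ((9 : ℝ) / 8) * (X ^ ((1 : ℝ) / 100) * X ^ ((2 : ℝ) / 8))) := by ring
      _ ≤ 11 * K * (2 * c + 1) ^ 3 * X ^ (7 / 5 : ℝ) +
          11 * (2 * c + 1) ^ 3 * (K2 * M * (2 * c + 2)) * X ^ (7 / 5 : ℝ) := by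
          refine add_le_add ?_ ?_
          · exact mul_le_mul_of_nonneg_left p1 (by positivity)
          · exact mul_le_mul_of_nonneg_left p2 (by positivity)
      _ = _ := by ring
  refine le_trans ?_ hfinal
  exact_mod_cast hcard1.trans hcard2

end Pool.Agent.H7.GF
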